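import Pool.Agent.H93.PF.Lefschetz

/-!
# The index of the generator is not trivial

If the multiplicities `ind c` of the characters in an index of dimension zero satisfy the Lefschetz
formula, and the right side does not vanish at a primitive root of unity, then some multiplicity
is positive.
-/

namespace Pool.Agent.H12.PG

open Finset Pool.Agent.H93.PF

/-- The general form, for `lef_ne_zero`. -/
theorem exists_ind_of_ne {n : ℕ} [NeZero n] (hn : 3 < n) {w h : Fin 3 → ZMod n}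
    (hw : ∀ i j, i ≠ j → IsUnit (w i - w j))
    (h3 : ∀ i j, 3 * ((h i + w i) - (h j + w j)) = 0)
    (hne : ∀ i j, i ≠ j → h i + w i ≠ h j + w j)
    (ind : ZMod n → ℤ) (ind_sum : ∑ k ∈ range n, ind (k : ZMod n) = 0)
    (lefschetz : ∀ ζ : ℂ, ζ ^ n = 1 → ζ ≠ 1 →
      ∑ k ∈ range n, (ind (k : ZMod n) : ℂ) * ζ ^ k = ∑ i, ζ ^ (h i).val /
        ((1 - ζ ^ (w (i + 1) - w i).val) * (1 - ζ ^ (w (i + 2) - w i).val))) :
    ∃ c, 0 < ind c := by
  by_contra hc
  push Not at hc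
  have h0 : ∀ k ∈ range n, ind (k : ZMod n) = 0 :=
    (Finset.sum_eq_zero_iff_of_nonpos fun k _ => hc _).mp ind_sum
  have hz := Complex.isPrimitiveRoot_exp n (NeZero.ne n)
  have hz1 : Complex.exp (2 * Real.pi * Complex.I / n) ≠ 1 := hz.ne_one (by omega)
  have key := lefschetz _ hz.pow_eq_one hz1
  rw [Finset.sum_eq_zero fun k hk => by rw [h0 k hk, Int.cast_zero, zero_mul]] at key
  exact lef_ne_zero hn hw h3 hne hz key.symm

/-- Orders fifteen and thirty-three. -/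
theorem exists_ind {n : ℕ} {w h : Fin 3 → ZMod n} {a e : ZMod n}
    (hn : (n = 15 ∧ a = 4) ∨ (n = 33 ∧ a = 10))
    (hw : ∀ i j, i ≠ j → IsUnit (w i - w j)) (he : ∀ i, h i = a * w i + e)
    (ind : ZMod n → ℤ) (ind_sum : ∑ k ∈ range n, ind (k : ZMod n) = 0)
    (lefschetz : ∀ ζ : ℂ, ζ ^ n = 1 → ζ ≠ 1 →
      ∑ k ∈ range n, (ind (k : ZMod n) : ℂ) * ζ ^ k = ∑ i, ζ ^ (h i).val /
        ((1 - ζ ^ (w (i + 1) - w i).val) * (1 - ζ ^ (w (i + 2) - w i).val))) :
    ∃ c, 0 < ind c := by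
  have hd : ∀ i j, (h i + w i) - (h j + w j) = (a + 1) * (w i - w j) := fun i j => by
    rw [he i, he j]; ring
  have h3a : 3 * (a + 1) = 0 := by
    rcases hn with ⟨rfl, rfl⟩ | ⟨rfl, rfl⟩ <;> decide
  have ha : a + 1 ≠ 0 := by
    rcases hn with ⟨rfl, rfl⟩ | ⟨rfl, rfl⟩ <;> decide
  have hn3 : 3 < n := by rcases hn with ⟨rfl, _⟩ | ⟨rfl, _⟩ <;> norm_num
  have : NeZero n := ⟨by omega⟩
  refine exists_ind_of_ne hn3 hw ?_ ?_ ind ind_sum lefschetz
  · intro i j
    rw [hd, ← mul_assoc, h3a, zero_mul]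
  · intro i j hij heq
    have h1 := hd i j
    rw [sub_eq_zero.mpr heq] at h1
    exact ha ((hw i j hij).mul_left_eq_zero.mp h1.symm)

end Pool.Agent.H12.PG
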